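import Pool.Agent.Helper68.LM2.St

/-!
# Module AVG of project LM2: an interval average is dominated by the mean over shifted dyadic grids
-/

set_option autoImplicit false

open MeasureTheory Set Filter Topology
open scoped ENNReal RealInnerProductSpace

namespace Pool.Agent.Helper17.LM2

open Pool.Agent.Helper68.LM2 Pool.Agent.Helper68.LM

theorem b1_integrable {h : ℝ → ℝ} (hh : B1 h) : Integrable h := by
  obtain ⟨hm, K, hK, h0⟩ := hh
  have h1 : IntegrableOn h (Icc (-K) K) := by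
    refine Measure.integrableOn_of_bounded (M := K) ?_ hm.aestronglyMeasurable ?_
    · rw [Real.volume_Icc]; exact ENNReal.ofReal_ne_top
    · exact Filter.Eventually.of_forall fun x => by rw [Real.norm_eq_abs]; exact hK x
  have h2 : Function.support h ⊆ Icc (-K) K := by
    intro x hx
    by_contra hn
    apply hx
    apply h0
    rw [mem_Icc, not_and_or, not_le, not_le] at hn
    rcases hn with h3 | h3
    · have := neg_abs_le x; linarith
    · exact h3.trans_le (le_abs_self x)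
  exact (integrableOn_iff_integrable_of_support_subset h2).1 h1

/-- the sliding integral -/
noncomputable def Ph (h : ℝ → ℝ) (L c : ℝ) : ℝ := ∫ y in c..(c + L), h y

theorem ph_cont {h : ℝ → ℝ} (hh : B1 h) (L : ℝ) : Continuous (Ph h L) := by
  have hi : ∀ a b, IntervalIntegrable h volume a b := fun a b =>
    (b1_integrable hh).intervalIntegrable
  have h1 := intervalIntegral.continuous_primitive hi 0
  have h2 : Ph h L = fun c => (∫ y in (0 : ℝ)..(c + L), h y) - ∫ y in (0 : ℝ)..c, h y := by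
    funext c
    unfold Ph
    rw [intervalIntegral.integral_interval_sub_left (hi _ _) (hi _ _)]
  rw [h2]
  exact (h1.comp (continuous_id.add continuous_const)).sub h1

theorem cell_eq (m : ℤ) (b : ℝ) : cell m b =
    Ico ((2 : ℝ) ^ m * ⌊b / (2 : ℝ) ^ m⌋) ((2 : ℝ) ^ m * ⌊b / (2 : ℝ) ^ m⌋ + (2 : ℝ) ^ m) := by
  have hL : (0 : ℝ) < (2 : ℝ) ^ m := by positivity
  ext y
  unfold cell
  rw [mem_ofPred_eq, mem_Ico, Int.floor_eq_iff, le_div_iff₀ hL, div_lt_iff₀ hL]
  constructor
  · rintro ⟨h1, h2⟩; constructor <;> linarith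
  · rintro ⟨h1, h2⟩; constructor <;> linarith

theorem avg_E1 (m : ℤ) (h : ℝ → ℝ) (b σ : ℝ) :
    E1 m (fun y => h (y - σ)) (b + σ) = ((2 : ℝ) ^ m)⁻¹ *
      Ph h ((2 : ℝ) ^ m) ((2 : ℝ) ^ m * ⌊(b + σ) / (2 : ℝ) ^ m⌋ - σ) := by
  have hL : (0 : ℝ) < (2 : ℝ) ^ m := by positivity
  unfold E1 Ph
  congr 1
  rw [cell_eq, integral_Ico_eq_integral_Ioc,
    ← intervalIntegral.integral_of_le (by linarith)]
  rw [intervalIntegral.integral_comp_sub_right (fun y => h y) σ]
  congr 1
  ring

/-- one period -/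
theorem avg_period {h : ℝ → ℝ} (hh : B1 h) (h0 : ∀ y, 0 ≤ h y) (L b : ℝ) (hL : 0 < L) :
    L / 2 * ∫ y in Icc (b - L / 2) (b + L / 2), h y ≤ ∫ c in (b - L)..b, Ph h L c := by
  have hint := b1_integrable hh
  have hi : ∀ a b, IntervalIntegrable h volume a b := fun a b => hint.intervalIntegrable
  have hpc := ph_cont hh L
  have hpi : ∀ a b, IntervalIntegrable (Ph h L) volume a b := fun a b =>
    hpc.intervalIntegrable a b
  rw [← intervalIntegral.integral_add_adjacent_intervals (hpi (b - L) (b - L / 2))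
    (hpi (b - L / 2) b)]
  rw [integral_Icc_eq_integral_Ioc, ← intervalIntegral.integral_of_le (by linarith)]
  rw [← intervalIntegral.integral_add_adjacent_intervals (hi (b - L / 2) b)
    (hi b (b + L / 2)), mul_add]
  have hsub : ∀ a' b' c : ℝ, a' ≤ b' → c ≤ a' → b' ≤ c + L →
      ∫ y in a'..b', h y ≤ Ph h L c := by
    intro a' b' c h1 h2 h3
    unfold Ph
    exact intervalIntegral.integral_mono_interval h2 h1 h3
      (Filter.Eventually.of_forall fun y => h0 y) (hi _ _)
  have p1 : L / 2 * ∫ y in (b - L / 2)..b, h y ≤ ∫ c in (b - L)..(b - L / 2), Ph h L c := by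
    have e : L / 2 * ∫ y in (b - L / 2)..b, h y =
        ∫ _c in (b - L)..(b - L / 2), (∫ y in (b - L / 2)..b, h y) := by
      rw [intervalIntegral.integral_const, smul_eq_mul]
      congr 1; ring
    rw [e]
    apply intervalIntegral.integral_mono_on (by linarith) intervalIntegrable_const (hpi _ _)
    intro c hc
    rw [mem_Icc] at hc
    exact hsub _ _ c (by linarith) hc.2 (by linarith [hc.1])
  have p2 : L / 2 * ∫ y in b..(b + L / 2), h y ≤ ∫ c in (b - L / 2)..b, Ph h L c := by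
    have e : L / 2 * ∫ y in b..(b + L / 2), h y =
        ∫ _c in (b - L / 2)..b, (∫ y in b..(b + L / 2), h y) := by
      rw [intervalIntegral.integral_const, smul_eq_mul]
      congr 1; ring
    rw [e]
    apply intervalIntegral.integral_mono_on (by linarith) intervalIntegrable_const (hpi _ _)
    intro c hc
    rw [mem_Icc] at hc
    exact hsub _ _ c (by linarith) hc.2 (by linarith [hc.1])
  linarith

theorem hAVG : StAVG := by
  intro m M hmM h hh h0 b
  obtain ⟨N, hN⟩ : ∃ N : ℕ, M = m + N := ⟨(M - m).toNat, by omega⟩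
  have hLm : (0 : ℝ) < (2 : ℝ) ^ m := by positivity
  have hM : (2 : ℝ) ^ M = ((2 ^ N : ℕ) : ℤ) • (2 : ℝ) ^ m := by
    rw [hN, zpow_add₀ (by norm_num), zpow_natCast, zsmul_eq_mul]
    push_cast
    ring
  have hhalf : (2 : ℝ) ^ (m - 1) = (2 : ℝ) ^ m / 2 := by
    rw [zpow_sub₀ (by norm_num), zpow_one]
  have hE : (fun σ => E1 m (fun y => h (y - σ)) (b + σ)) = fun σ => ((2 : ℝ) ^ m)⁻¹ *
      Ph h ((2 : ℝ) ^ m) ((2 : ℝ) ^ m * ⌊(b + σ) / (2 : ℝ) ^ m⌋ - σ) := by
    funext σ
    exact avg_E1 m h b σ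
  rw [hE, hhalf]
  set L : ℝ := (2 : ℝ) ^ m with hL
  set g : ℝ → ℝ := fun σ => L⁻¹ * Ph h L (L * ⌊(b + σ) / L⌋ - σ) with hg
  have hper : Function.Periodic g L := by
    intro σ
    rw [hg]
    have e1 : (b + (σ + L)) / L = (b + σ) / L + 1 := by field_simp; ring
    have e2 : L * (⌊(b + (σ + L)) / L⌋ : ℝ) - (σ + L) = L * ⌊(b + σ) / L⌋ - σ := by
      rw [e1, Int.floor_add_one]
      push_cast
      ring
    show L⁻¹ * Ph h L (L * ⌊(b + (σ + L)) / L⌋ - (σ + L)) = L⁻¹ * Ph h L (L * ⌊(b + σ) / L⌋ - σ)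
    rw [e2]
  have hint := b1_integrable hh
  have hmeas : Measurable g := by
    rw [hg]
    have h1 : Measurable (fun σ : ℝ => (b + σ) / L) := by fun_prop
    have hfl : Measurable (fun σ : ℝ => (⌊(b + σ) / L⌋ : ℝ)) :=
      (measurable_from_top (f := fun n : ℤ => (n : ℝ))).comp (Int.measurable_floor.comp h1)
    exact measurable_const.mul ((ph_cont hh L).measurable.comp
      ((measurable_const.mul hfl).sub measurable_id))
  have hbd : ∃ C, ∀ σ, ‖g σ‖ ≤ C := by
    refine ⟨L⁻¹ * ∫ y, ‖h y‖, fun σ => ?_⟩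
    rw [hg]
    show ‖L⁻¹ * Ph h L (L * ⌊(b + σ) / L⌋ - σ)‖ ≤ L⁻¹ * ∫ y, ‖h y‖
    rw [norm_mul, Real.norm_of_nonneg (by positivity)]
    gcongr
    unfold Ph
    rw [intervalIntegral.integral_of_le (by linarith)]
    refine (norm_integral_le_integral_norm _).trans ?_
    exact setIntegral_le_integral hint.norm (Filter.Eventually.of_forall fun y => norm_nonneg _)
  obtain ⟨C, hC⟩ := hbd
  have hgi : ∀ t₁ t₂, IntervalIntegrable g volume t₁ t₂ := by
    intro t₁ t₂
    rw [intervalIntegrable_iff]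
    refine Measure.integrableOn_of_bounded (M := C) ?_ hmeas.aestronglyMeasurable ?_
    · rw [uIoc, Real.volume_Ioc]; exact ENNReal.ofReal_ne_top
    · exact Filter.Eventually.of_forall fun x => hC x
  have hMpos : (0 : ℝ) < (2 : ℝ) ^ M := by positivity
  have hI : ∫ σ in Icc (0 : ℝ) ((2 : ℝ) ^ M), g σ =
      ((2 ^ N : ℕ) : ℝ) * ∫ c in (b - L)..b, L⁻¹ * Ph h L c := by
    rw [integral_Icc_eq_integral_Ioc, ← intervalIntegral.integral_of_le hMpos.le]
    have h1 := hper.intervalIntegral_add_zsmul_eq ((2 ^ N : ℕ) : ℤ) 0 hgi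
    rw [← hM, zero_add] at h1
    rw [h1, zero_add, zsmul_eq_mul]
    congr 1
    have h2 := hper.intervalIntegral_add_eq 0 (-b)
    rw [zero_add] at h2
    rw [h2]
    have h3 : ∫ σ in (-b)..(-b + L), g σ = ∫ σ in (-b)..(-b + L), L⁻¹ * Ph h L (-σ) := by
      rw [intervalIntegral.integral_of_le (by linarith),
        intervalIntegral.integral_of_le (by linarith),
        ← integral_Ico_eq_integral_Ioc, ← integral_Ico_eq_integral_Ioc]
      refine setIntegral_congr_fun measurableSet_Ico fun σ hσ => ?_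
      rw [mem_Ico] at hσ
      have hfl : ⌊(b + σ) / L⌋ = 0 := by
        rw [Int.floor_eq_zero_iff, mem_Ico]
        constructor
        · apply div_nonneg _ hLm.le
          linarith [hσ.1]
        · rw [div_lt_one hLm]
          linarith [hσ.2]
      show L⁻¹ * Ph h L (L * ⌊(b + σ) / L⌋ - σ) = L⁻¹ * Ph h L (-σ)
      rw [hfl]
      congr 2
      push_cast
      ring
    rw [h3, intervalIntegral.integral_comp_neg (fun c => L⁻¹ * Ph h L c)]
    congr 1 <;> ring
  rw [hI, intervalIntegral.integral_const_mul]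
  have hp := avg_period hh h0 L b hLm
  have hMN : (2 : ℝ) ^ M = ((2 ^ N : ℕ) : ℝ) * L := by
    rw [hM, zsmul_eq_mul]
    push_cast
    rfl
  rw [hMN]
  have hNpos : (0 : ℝ) < ((2 ^ N : ℕ) : ℝ) := by positivity
  have e1 : 2 * ((((2 ^ N : ℕ) : ℝ) * L)⁻¹ * (((2 ^ N : ℕ) : ℝ) *
      (L⁻¹ * ∫ c in (b - L)..b, Ph h L c))) = 2 * L⁻¹ * L⁻¹ * ∫ c in (b - L)..b, Ph h L c := by
    field_simp
  rw [e1]
  have h4 := mul_le_mul_of_nonneg_left hp (show 0 ≤ 2 * L⁻¹ * L⁻¹ by positivity)
  refine le_trans (le_of_eq ?_) h4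
  field_simp

end Pool.Agent.Helper17.LM2
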