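import Pool.Agent.Helper68.LM2.Geo
import Pool.Agent.Helper79.LM.M_TC

/-!
# Module FING of project LM2: from a dominating measure to the arclength measure
-/

set_option autoImplicit false

open MeasureTheory Set Filter Topology
open scoped ENNReal RealInnerProductSpace

namespace Pool.Agent.Helper17.LM2

open Pool.Agent.Helper68.LM2 Pool.Agent.Helper68.LM
open Pool.Agent.Helper61.Lacunary (ConditionG LpBounded arclength avg lacMax)

theorem hFING : StFING := by
  intro Ω p ν hp hMB hdom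
  obtain ⟨hfin, C, hC⟩ := hMB
  have hp0 : 0 < p := by linarith
  have hp1 : 0 < 1 / p := by positivity
  have hle : arclength Ω ≤ ν := by
    rw [Measure.le_iff]
    intro B hB
    unfold arclength
    rw [Measure.restrict_apply hB, inter_comm]
    exact hdom B hB
  refine ⟨(max C 0) ^ (1 / p), fun f hf => ?_⟩
  obtain ⟨h, hhm, hhf, hhae⟩ := Pool.Agent.Helper79.LM.exists_maj_TC f hf.aestronglyMeasurable
  have hnorm : (∫⁻ x, h x ^ p) ^ (1 / p) = eLpNorm f (ENNReal.ofReal p) volume := by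
    rw [eLpNorm_eq_lintegral_rpow_enorm_toReal (by simpa using hp0) ENNReal.ofReal_ne_top,
      ENNReal.toReal_ofReal hp0.le]
    congr 1
    apply lintegral_congr_ae
    filter_upwards [hhae] with x hx
    rw [hx]
  have hlac : ∀ x, lacMax Ω f x ≤ ⨆ k : ℤ, ∫⁻ y, h (x - (2 : ℝ) ^ k • y) ∂ν := by
    intro x
    unfold lacMax
    apply iSup_mono
    intro k
    have h1 : ENNReal.ofReal |avg Ω k f x| ≤ ∫⁻ y, h (x - (2 : ℝ) ^ k • y) ∂(arclength Ω) := by
      have h2 : ENNReal.ofReal |avg Ω k f x| = ‖avg Ω k f x‖ₑ := by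
        rw [← Real.norm_eq_abs, ofReal_norm]
      rw [h2]
      unfold avg
      exact (enorm_integral_le_lintegral_enorm _).trans (lintegral_mono fun y => hhf _)
    exact h1.trans (lintegral_mono' hle le_rfl)
  have hCC : ENNReal.ofReal C = ENNReal.ofReal (max C 0) := by
    rcases le_total C 0 with hc | hc
    · rw [max_eq_right hc, ENNReal.ofReal_of_nonpos hc, ENNReal.ofReal_zero]
    · rw [max_eq_left hc]
  calc (∫⁻ x, lacMax Ω f x ^ p) ^ (1 / p)
      ≤ (∫⁻ x, (⨆ k : ℤ, ∫⁻ y, h (x - (2 : ℝ) ^ k • y) ∂ν) ^ p) ^ (1 / p) := by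
        apply ENNReal.rpow_le_rpow _ hp1.le
        exact lintegral_mono fun x => ENNReal.rpow_le_rpow (hlac x) hp0.le
    _ ≤ (ENNReal.ofReal C * ∫⁻ x, h x ^ p) ^ (1 / p) :=
        ENNReal.rpow_le_rpow (hC h hhm) hp1.le
    _ = ENNReal.ofReal ((max C 0) ^ (1 / p)) * eLpNorm f (ENNReal.ofReal p) volume := by
        rw [ENNReal.mul_rpow_of_nonneg _ _ hp1.le, hnorm, hCC,
          ENNReal.ofReal_rpow_of_nonneg (le_max_right _ _) hp1.le]

end Pool.Agent.Helper17.LM2
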