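import Pool.Agent.Helper68.LM2.St

/-!
# Module TAY of project LM2: an elementary inequality for `|x + y| ^ p`
-/

set_option autoImplicit false

namespace Pool.Agent.Helper17.LM2

open Pool.Agent.Helper68.LM2 Pool.Agent.Helper68.LM

theorem tay_b2 (s u : ℝ) (hs : 1 ≤ s) (hu : -1 < u) :
    (1 + u) ^ s ≤ 1 + s * u * (1 + u) ^ (s - 1) := by
  have h1 : 0 < 1 + u := by linarith
  have hw : -1 ≤ -u / (1 + u) := by
    rw [le_div_iff₀ h1]; linarith
  have hb := one_add_mul_self_le_rpow_one_add hw hs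
  have e1 : 1 + -u / (1 + u) = (1 + u)⁻¹ := by field_simp; ring
  rw [e1, Real.inv_rpow h1.le] at hb
  have h2 : 0 < (1 + u) ^ s := Real.rpow_pos_of_pos h1 s
  have h3 := mul_le_mul_of_nonneg_right hb h2.le
  rw [inv_mul_cancel₀ h2.ne'] at h3
  have e2 : (1 + u) ^ s = (1 + u) ^ (s - 1) * (1 + u) := by
    rw [← Real.rpow_add_one h1.ne' (s - 1)]
    congr 1; ring
  have e3 : (1 + s * (-u / (1 + u))) * (1 + u) ^ s = (1 + u) ^ s - s * u * (1 + u) ^ (s - 1) := by
    rw [e2]; field_simp; ring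
  linarith

theorem tay_key (p u : ℝ) (hp : 2 ≤ p) (h1 : -(1 / 2) ≤ u) (h2 : u ≤ 1 / 2) :
    (1 + u) ^ p ≤ 1 + p * u + p * (p - 1) * 2 ^ (p - 2) * u ^ 2 := by
  have hb := tay_b2 p u (by linarith) (by linarith)
  have h2p : (1 : ℝ) ≤ 2 ^ (p - 2) := Real.one_le_rpow (by norm_num) (by linarith)
  have key : u * (1 + u) ^ (p - 1) ≤ u + (p - 1) * 2 ^ (p - 2) * u ^ 2 := by
    rcases le_total u 0 with hu | hu
    · have h3 := one_add_mul_self_le_rpow_one_add (show -1 ≤ u by linarith)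
        (show 1 ≤ p - 1 by linarith)
      have h4 : u * (1 + u) ^ (p - 1) ≤ u * (1 + (p - 1) * u) :=
        mul_le_mul_of_nonpos_left h3 hu
      have h5 : (p - 1) * u ^ 2 ≤ (p - 1) * 2 ^ (p - 2) * u ^ 2 := by
        have : 0 ≤ (p - 1) * u ^ 2 := mul_nonneg (by linarith) (sq_nonneg u)
        nlinarith
      nlinarith
    · have h3 := tay_b2 (p - 1) u (by linarith) (by linarith)
      rw [show p - 1 - 1 = p - 2 by ring] at h3
      have h4 : (1 + u) ^ (p - 2) ≤ 2 ^ (p - 2) :=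
        Real.rpow_le_rpow (by linarith) (by linarith) (by linarith)
      have h5 : (1 + u) ^ (p - 1) ≤ 1 + (p - 1) * u * 2 ^ (p - 2) := by
        refine h3.trans ?_
        have : 0 ≤ (p - 1) * u := mul_nonneg (by linarith) hu
        nlinarith
      have h6 := mul_le_mul_of_nonneg_left h5 hu
      nlinarith
  have h7 := mul_le_mul_of_nonneg_left key (show 0 ≤ p by linarith)
  nlinarith

/-- small `y` -/
theorem tay_small (p x y : ℝ) (hp : 2 ≤ p) (hx : 0 < x) (hy : |y| ≤ x / 2) :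
    |x + y| ^ p ≤ |x| ^ p + p * (|x| ^ (p - 2) * x * y) +
      p * (p - 1) * 2 ^ (p - 2) * (|x| ^ (p - 2) * y ^ 2) := by
  rw [abs_le] at hy
  have hxy : 0 < x + y := by linarith [hy.1]
  rw [abs_of_pos hx, abs_of_pos hxy]
  have hu1 : -(1 / 2) ≤ y / x := by rw [le_div_iff₀ hx]; linarith [hy.1]
  have hu2 : y / x ≤ 1 / 2 := by rw [div_le_iff₀ hx]; linarith [hy.2]
  have hk := tay_key p (y / x) hp hu1 hu2
  have e1 : x + y = x * (1 + y / x) := by field_simp
  have e2 : x ^ p = x ^ (p - 2) * x ^ 2 := by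
    rw [← Real.rpow_natCast x 2, ← Real.rpow_add hx]
    congr 1; push_cast; ring
  have h0 : 0 ≤ 1 + y / x := by linarith
  rw [e1, Real.mul_rpow hx.le h0]
  have hxp : 0 ≤ x ^ p := Real.rpow_nonneg hx.le p
  refine (mul_le_mul_of_nonneg_left hk hxp).trans (le_of_eq ?_)
  have e3 : x ^ p * (y / x) = x ^ (p - 2) * x * y := by rw [e2]; field_simp
  have e4 : x ^ p * (y / x) ^ 2 = x ^ (p - 2) * y ^ 2 := by rw [e2]; field_simp
  calc x ^ p * (1 + p * (y / x) + p * (p - 1) * 2 ^ (p - 2) * (y / x) ^ 2)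
      = x ^ p + p * (x ^ p * (y / x)) + p * (p - 1) * 2 ^ (p - 2) * (x ^ p * (y / x) ^ 2) := by ring
    _ = _ := by rw [e3, e4]

/-- large `y` -/
theorem tay_large (p x y : ℝ) (hp : 2 ≤ p) (hy : |x| ≤ 2 * |y|) :
    |x + y| ^ p ≤ |x| ^ p + p * (|x| ^ (p - 2) * x * y) +
      (3 ^ p + p * 2 ^ (p - 1)) * |y| ^ p := by
  have h1 : |x + y| ^ p ≤ 3 ^ p * |y| ^ p := by
    rw [← Real.mul_rpow (by norm_num) (abs_nonneg y)]
    apply Real.rpow_le_rpow (abs_nonneg _) _ (by linarith)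
    have := abs_add_le x y
    linarith
  have h2 : -(p * 2 ^ (p - 1) * |y| ^ p) ≤ p * (|x| ^ (p - 2) * x * y) := by
    rcases eq_or_ne x 0 with rfl | hx
    · rw [mul_zero, zero_mul, mul_zero]
      have : 0 ≤ p * 2 ^ (p - 1) * |y| ^ p := by positivity
      linarith
    · have hxp : 0 < |x| := abs_pos.2 hx
      have hyp : 0 < |y| := by linarith
      have e1 : |x| ^ (p - 2) * |x| = |x| ^ (p - 1) := by
        rw [← Real.rpow_add_one hxp.ne' (p - 2)]
        congr 1; ring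
      have h3 : |x| ^ (p - 1) ≤ 2 ^ (p - 1) * |y| ^ (p - 1) := by
        rw [← Real.mul_rpow (by norm_num) (abs_nonneg y)]
        exact Real.rpow_le_rpow (abs_nonneg _) hy (by linarith)
      have e2 : |y| ^ (p - 1) * |y| = |y| ^ p := by
        rw [← Real.rpow_add_one hyp.ne' (p - 1)]
        congr 1; ring
      have h4 : -(|x| ^ (p - 1) * |y|) ≤ |x| ^ (p - 2) * x * y := by
        have h5 : -(|x| * |y|) ≤ x * y := by
          have := neg_abs_le (x * y)
          rwa [abs_mul] at this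
        have h6 := mul_le_mul_of_nonneg_left h5 (Real.rpow_nonneg (abs_nonneg x) (p - 2))
        calc -(|x| ^ (p - 1) * |y|) = |x| ^ (p - 2) * -(|x| * |y|) := by rw [← e1]; ring
          _ ≤ |x| ^ (p - 2) * (x * y) := h6
          _ = |x| ^ (p - 2) * x * y := by ring
      have h7 : |x| ^ (p - 1) * |y| ≤ 2 ^ (p - 1) * |y| ^ p := by
        calc |x| ^ (p - 1) * |y| ≤ 2 ^ (p - 1) * |y| ^ (p - 1) * |y| := by gcongr
          _ = 2 ^ (p - 1) * |y| ^ p := by rw [← e2]; ring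
      have h8 : -(2 ^ (p - 1) * |y| ^ p) ≤ |x| ^ (p - 2) * x * y := by linarith
      have h9 := mul_le_mul_of_nonneg_left h8 (show 0 ≤ p by linarith)
      calc -(p * 2 ^ (p - 1) * |y| ^ p) = p * -(2 ^ (p - 1) * |y| ^ p) := by ring
        _ ≤ _ := h9
  have h3 : 0 ≤ |x| ^ p := Real.rpow_nonneg (abs_nonneg x) p
  nlinarith

theorem hTAY : StTAY := by
  intro p hp
  refine ⟨3 ^ p + p * 2 ^ (p - 1) + p * (p - 1) * 2 ^ (p - 2), ?_, ?_⟩
  · have h1 : 0 ≤ p - 1 := by linarith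
    positivity
  intro x y
  have hp1 : 0 ≤ p - 1 := by linarith
  have hp0 : 0 ≤ p := by linarith
  have a1 : 0 ≤ (3 : ℝ) ^ p + p * 2 ^ (p - 1) := by positivity
  have a2 : 0 ≤ p * (p - 1) * (2 : ℝ) ^ (p - 2) := by positivity
  have b1 : 0 ≤ |x| ^ (p - 2) * y ^ 2 := by positivity
  have b2 : 0 ≤ |y| ^ p := by positivity
  rcases le_total |x| (2 * |y|) with h | h
  · refine (tay_large p x y hp h).trans ?_
    nlinarith [mul_nonneg a1 b1, mul_nonneg a2 b1, mul_nonneg a2 b2]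
  · rcases eq_or_ne x 0 with hx0 | hx0
    · have : |x| ≤ 2 * |y| := by rw [hx0, abs_zero]; positivity
      refine (tay_large p x y hp this).trans ?_
      nlinarith [mul_nonneg a1 b1, mul_nonneg a2 b1, mul_nonneg a2 b2]
    · have key : |x + y| ^ p ≤ |x| ^ p + p * (|x| ^ (p - 2) * x * y) +
          p * (p - 1) * 2 ^ (p - 2) * (|x| ^ (p - 2) * y ^ 2) := by
        rcases lt_or_gt_of_ne hx0 with hx | hx
        · have h3 := tay_small p (-x) (-y) hp (by linarith)
            (by rw [abs_neg]; rw [abs_of_neg hx] at h; linarith)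
          rw [abs_neg, show -x + -y = -(x + y) by ring, abs_neg] at h3
          calc |x + y| ^ p ≤ _ := h3
            _ = _ := by ring
        · exact tay_small p x y hp hx (by rw [abs_of_pos hx] at h; linarith)
      refine key.trans ?_
      nlinarith [mul_nonneg a1 b1, mul_nonneg a1 b2, mul_nonneg a2 b2]

end Pool.Agent.Helper17.LM2
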