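import Pool.Agent.Helper68.LM2.Geo

/-!
# Module THC of project LM2: final theorem (compactness)
-/

set_option autoImplicit false

open MeasureTheory Set Filter Topology
open scoped ENNReal RealInnerProductSpace

namespace Pool.Agent.Helper17.LM2

open Pool.Agent.Helper68.LM2 Pool.Agent.Helper68.LM
open Pool.Agent.Helper61.Lacunary (ConditionG LpBounded)

theorem hTHC (hMBA : StMBA) (hFING : StFING) (hLOC : StLOC) : StTHC := by
  intro Ω p hopen hconv hbdd h0 hcases hp hG
  obtain ⟨-, hadd, -, hzero⟩ := hMBA p hp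
  have hcomp : IsCompact (frontier Ω) :=
    Metric.isCompact_of_isClosed_isBounded isClosed_frontier
      (hbdd.closure.subset frontier_subset_closure)
  have hP : ∃ ν : Measure Pl, MB p ν ∧ ∀ B : Set Pl, MeasurableSet B →
      (μH[1] : Measure Pl) (frontier Ω ∩ frontier Ω ∩ B) ≤ ν B := by
    refine hcomp.induction_on (p := fun S => ∃ ν : Measure Pl, MB p ν ∧
      ∀ B : Set Pl, MeasurableSet B → (μH[1] : Measure Pl) (frontier Ω ∩ S ∩ B) ≤ ν B) ?_ ?_ ?_ ?_
    · refine ⟨0, hzero, fun B _ => ?_⟩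
      rw [inter_empty, empty_inter, measure_empty]
      exact bot_le
    · rintro s t hst ⟨ν, h1, h2⟩
      refine ⟨ν, h1, fun B hB => (measure_mono ?_).trans (h2 B hB)⟩
      exact inter_subset_inter_left _ (inter_subset_inter_right _ hst)
    · rintro s t ⟨ν₁, h1, h2⟩ ⟨ν₂, h3, h4⟩
      refine ⟨ν₁ + ν₂, hadd _ _ h1 h3, fun B hB => ?_⟩
      rw [inter_union_distrib_left, union_inter_distrib_right]
      refine (measure_union_le _ _).trans ?_
      rw [Measure.add_apply]
      exact add_le_add (h2 B hB) (h4 B hB)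
    · intro y hy
      obtain ⟨U, hU, ν, h1, h2⟩ := hLOC Ω p hopen hconv hbdd h0 hp hG y hy (hcases y hy)
      exact ⟨U, mem_nhdsWithin_of_mem_nhds hU, ν, h1, h2⟩
  obtain ⟨ν, h1, h2⟩ := hP
  refine hFING Ω p ν hp h1 fun B hB => ?_
  have := h2 B hB
  rwa [inter_self] at this

end Pool.Agent.Helper17.LM2
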